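import Pool.Agent.W317.DR.Stm

/-!
DR-TR: the abstract hypergraph on `Fin n` and the transfer between injections and set-level copies.
-/

set_option autoImplicit false

namespace Pool.Agent.W148.DR

open Pool.Agent.W317.DR

/-- the structured vertex type -/
inductive VV {I : Type} [Fintype I] [DecidableEq I] (p : Par I) : Type
  | f (a : Fin p.nF) : VV p
  | t (i : I) (a : Fin (p.q i)) : VV p
  | u (i : I) (a : Fin (p.x i - p.q i)) : VV p
  | z : VV p
  | s (b : Fin p.r) (a : Fin p.w) : VV p
  | w (a : Fin p.w0) : VV p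

variable {I : Type} [Fintype I] [DecidableEq I] {p : Par I}

/-- the structured vertex type is a sum of finite types -/
def VV.equiv (p : Par I) : VV p ≃ Fin p.nF ⊕ (Σ i, Fin (p.q i)) ⊕ (Σ i, Fin (p.x i - p.q i)) ⊕
    Unit ⊕ (Fin p.r × Fin p.w) ⊕ Fin p.w0 where
  toFun v := match v with
    | .f a => .inl a
    | .t i a => .inr (.inl ⟨i, a⟩)
    | .u i a => .inr (.inr (.inl ⟨i, a⟩))
    | .z => .inr (.inr (.inr (.inl ())))
    | .s b a => .inr (.inr (.inr (.inr (.inl (b, a)))))
    | .w a => .inr (.inr (.inr (.inr (.inr a))))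
  invFun v := match v with
    | .inl a => .f a
    | .inr (.inl ⟨i, a⟩) => .t i a
    | .inr (.inr (.inl ⟨i, a⟩)) => .u i a
    | .inr (.inr (.inr (.inl ()))) => .z
    | .inr (.inr (.inr (.inr (.inl (b, a))))) => .s b a
    | .inr (.inr (.inr (.inr (.inr a)))) => .w a
  left_inv v := by cases v <;> rfl
  right_inv v := by rcases v with a | ⟨i, a⟩ | ⟨i, a⟩ | ⟨⟩ | ⟨b, a⟩ | a <;> rfl

instance : Fintype (VV p) := Fintype.ofEquiv _ (VV.equiv p).symm

noncomputable instance : DecidableEq (VV p) := Classical.decEq _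

theorem t_inj (i : I) : Function.Injective (VV.t (p := p) i) := by
  intro a b h; cases h; rfl
theorem u_inj (i : I) : Function.Injective (VV.u (p := p) i) := by
  intro a b h; cases h; rfl
theorem f_inj : Function.Injective (VV.f (p := p)) := by
  intro a b h; cases h; rfl
theorem s_inj (b : Fin p.r) : Function.Injective (VV.s (p := p) b) := by
  intro a b h; cases h; rfl
theorem w_inj : Function.Injective (VV.w (p := p)) := by
  intro a b h; cases h; rfl

section sets
variable {β : Type} [DecidableEq β] (φ : VV p → β)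

/-- image of the kernel -/
def sF : Finset β := Finset.univ.image (fun a => φ (.f a))
/-- image of the `T` part -/
def sT (i : I) : Finset β := Finset.univ.image (fun a => φ (.t i a))
/-- image of the complementary part -/
def sU (i : I) : Finset β := Finset.univ.image (fun a => φ (.u i a))
/-- image of the block -/
def sX (i : I) : Finset β := sT φ i ∪ sU φ i
/-- image of a flex part -/
def sS (b : Fin p.r) : Finset β := Finset.univ.image (fun a => φ (.s b a))
/-- image of the flex block -/
def sW : Finset β := Finset.univ.biUnion (sS φ) ∪ Finset.univ.image (fun a => φ (.w a))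
/-- core edge -/
def sCore (j : I) : Finset β := sF φ ∪ (sT φ j ∪ (p.N j).biUnion (sX φ))
/-- gadget edge -/
def sGa : Finset β := insert (φ .z) (Finset.univ.biUnion (sU φ))
/-- gadget edge -/
def sGb : Finset β := insert (φ .z) (Finset.univ.biUnion (sT φ))
/-- flex edge -/
def sFlex (b : Fin p.r) : Finset β := insert (φ .z) (sF φ ∪ (sW φ \ sS φ b))
/-- all edges -/
def sH : Finset (Finset β) := insert (sGa φ) (insert (sGb φ) (Finset.univ.image (sCore φ))) ∪
  Finset.univ.image (sFlex φ)

end sets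

variable {β γ : Type} [DecidableEq β] [DecidableEq γ]

theorem mem_sF {φ : VV p → β} {v : β} : v ∈ sF φ ↔ ∃ a, φ (.f a) = v := by simp [sF]
theorem mem_sT {φ : VV p → β} {i : I} {v : β} : v ∈ sT φ i ↔ ∃ a, φ (.t i a) = v := by simp [sT]
theorem mem_sU {φ : VV p → β} {i : I} {v : β} : v ∈ sU φ i ↔ ∃ a, φ (.u i a) = v := by simp [sU]
theorem mem_sX {φ : VV p → β} {i : I} {v : β} :
    v ∈ sX φ i ↔ (∃ a, φ (.t i a) = v) ∨ ∃ a, φ (.u i a) = v := by simp [sX, mem_sT, mem_sU]
theorem mem_sS {φ : VV p → β} {b : Fin p.r} {v : β} : v ∈ sS φ b ↔ ∃ a, φ (.s b a) = v := by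
  simp [sS]
theorem mem_sW {φ : VV p → β} {v : β} :
    v ∈ sW φ ↔ (∃ b a, φ (.s b a) = v) ∨ ∃ a, φ (.w a) = v := by simp [sW, mem_sS]

theorem card_sF {φ : VV p → β} (h : Function.Injective φ) : (sF φ).card = p.nF := by
  unfold sF
  exact (Finset.card_image_of_injective _ (h.comp f_inj)).trans (by simp)
theorem card_sT {φ : VV p → β} (h : Function.Injective φ) (i : I) : (sT φ i).card = p.q i := by
  unfold sT
  exact (Finset.card_image_of_injective _ (h.comp (t_inj i))).trans (by simp)
theorem card_sU {φ : VV p → β} (h : Function.Injective φ) (i : I) :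
    (sU φ i).card = p.x i - p.q i := by
  unfold sU
  exact (Finset.card_image_of_injective _ (h.comp (u_inj i))).trans (by simp)
theorem card_sS {φ : VV p → β} (h : Function.Injective φ) (b : Fin p.r) :
    (sS φ b).card = p.w := by
  unfold sS
  exact (Finset.card_image_of_injective _ (h.comp (s_inj b))).trans (by simp)

theorem disj_TU {φ : VV p → β} (h : Function.Injective φ) (i : I) :
    Disjoint (sT φ i) (sU φ i) := by
  rw [Finset.disjoint_left]
  intro v h1 h2
  obtain ⟨a, rfl⟩ := mem_sT.1 h1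
  obtain ⟨b, hb⟩ := mem_sU.1 h2
  cases h hb

theorem card_sX {φ : VV p → β} (h : Function.Injective φ) (i : I) : (sX φ i).card = p.x i := by
  unfold sX
  rw [Finset.card_union_of_disjoint (disj_TU h i), card_sT h, card_sU h]
  have := p.q_le i
  omega

theorem card_sW {φ : VV p → β} (h : Function.Injective φ) :
    (sW φ).card = p.r * p.w + p.w0 := by
  unfold sW
  have hw : (Finset.univ.image (fun a => φ (VV.w a))).card = p.w0 :=
    (Finset.card_image_of_injective _ (h.comp w_inj)).trans (by simp)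
  rw [Finset.card_union_of_disjoint, Finset.card_biUnion, hw]
  · simp [card_sS h]
  · intro b _ b' _ hbb
    rw [Function.onFun, Finset.disjoint_left]
    intro v h1 h2
    obtain ⟨a, rfl⟩ := mem_sS.1 h1
    obtain ⟨c, hc⟩ := mem_sS.1 h2
    have := h hc
    cases this
    exact hbb rfl
  · rw [Finset.disjoint_left]
    intro v h1 h2
    simp only [Finset.mem_biUnion, Finset.mem_univ, true_and, mem_sS] at h1
    obtain ⟨b, a, rfl⟩ := h1
    simp only [Finset.mem_image, Finset.mem_univ, true_and] at h2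
    obtain ⟨c, hc⟩ := h2
    cases h hc

/-- the copy attached to an injection -/
noncomputable def toHC (φ : VV p → ℕ) (h : Function.Injective φ) : HC p where
  F := sF φ
  X := sX φ
  T := sT φ
  z := φ .z
  cF := card_sF h
  cX := card_sX h
  cT := card_sT h
  TX := fun i => Finset.subset_union_left
  FX := fun i => by
    rw [Finset.disjoint_left]
    intro v h1 h2
    obtain ⟨a, rfl⟩ := mem_sF.1 h1
    rcases mem_sX.1 h2 with ⟨b, hb⟩ | ⟨b, hb⟩ <;> cases h hb
  XX := fun i j hij => by
    rw [Finset.disjoint_left]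
    intro v h1 h2
    rcases mem_sX.1 h1 with ⟨a, rfl⟩ | ⟨a, rfl⟩ <;>
      rcases mem_sX.1 h2 with ⟨b, hb⟩ | ⟨b, hb⟩ <;> cases h hb <;> exact hij rfl
  zF := fun h1 => by
    obtain ⟨a, ha⟩ := mem_sF.1 h1
    cases h ha
  zX := fun i h1 => by
    rcases mem_sX.1 h1 with ⟨a, ha⟩ | ⟨a, ha⟩ <;> cases h ha
  W := sW φ
  S := sS φ
  cW := card_sW h
  cS := card_sS h
  SW := fun s v hv => by
    obtain ⟨a, rfl⟩ := mem_sS.1 hv
    exact mem_sW.2 (Or.inl ⟨_, _, rfl⟩)
  SS := fun s t hst => by
    rw [Finset.disjoint_left]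
    intro v h1 h2
    obtain ⟨a, rfl⟩ := mem_sS.1 h1
    obtain ⟨c, hc⟩ := mem_sS.1 h2
    cases h hc
    exact hst rfl
  WF := by
    rw [Finset.disjoint_left]
    intro v h1 h2
    obtain ⟨a, rfl⟩ := mem_sF.1 h2
    rcases mem_sW.1 h1 with ⟨b, c, hb⟩ | ⟨b, hb⟩ <;> cases h hb
  WX := fun i => by
    rw [Finset.disjoint_left]
    intro v h1 h2
    rcases mem_sW.1 h1 with ⟨b, c, rfl⟩ | ⟨b, rfl⟩ <;>
      rcases mem_sX.1 h2 with ⟨a, ha⟩ | ⟨a, ha⟩ <;> cases h ha
  zW := fun h1 => by
    rcases mem_sW.1 h1 with ⟨b, c, hb⟩ | ⟨b, hb⟩ <;> cases h hb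

theorem sX_sdiff {φ : VV p → β} (h : Function.Injective φ) (i : I) : sX φ i \ sT φ i = sU φ i := by
  unfold sX
  rw [Finset.union_sdiff_left]
  exact Finset.sdiff_eq_self_of_disjoint (disj_TU h i).symm

theorem toHC_hedges (φ : VV p → ℕ) (h : Function.Injective φ) : (toHC φ h).hedges = sH φ := by
  have h1 : (toHC φ h).toRC.core = sCore φ := rfl
  have h2 : (toHC φ h).toRC.ga = sGa φ := by
    change insert (φ .z) (Finset.univ.biUnion (fun j => sX φ j \ sT φ j)) = _
    simp only [sX_sdiff h]
    rfl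
  have h3 : (toHC φ h).toRC.gb = sGb φ := rfl
  have h4 : (toHC φ h).flex = sFlex φ := rfl
  unfold HC.hedges RC.edges RC.coreS sH
  rw [h1, h2, h3, h4]

/-- the abstract hypergraph -/
noncomputable def H0 (p : Par I) : Finset (Finset (VV p)) := sH (id : VV p → VV p)

section img
variable {φ : VV p → β}

theorem img_F : (sF (id : VV p → VV p)).image φ = sF φ := by
  unfold sF; rw [Finset.image_image]; rfl
theorem img_T (i : I) : (sT (id : VV p → VV p) i).image φ = sT φ i := by
  unfold sT; rw [Finset.image_image]; rfl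
theorem img_U (i : I) : (sU (id : VV p → VV p) i).image φ = sU φ i := by
  unfold sU; rw [Finset.image_image]; rfl
theorem img_X (i : I) : (sX (id : VV p → VV p) i).image φ = sX φ i := by
  unfold sX; rw [Finset.image_union, img_T, img_U]
theorem img_S (i : Fin p.r) : (sS (id : VV p → VV p) i).image φ = sS φ i := by
  unfold sS; rw [Finset.image_image]; rfl
theorem img_W : (sW (id : VV p → VV p)).image φ = sW φ := by
  unfold sW; rw [Finset.image_union, Finset.image_image, Finset.biUnion_image]
  simp only [img_S]; rfl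
theorem img_core (j : I) : (sCore (id : VV p → VV p) j).image φ = sCore φ j := by
  unfold sCore
  rw [Finset.image_union, Finset.image_union, img_F, img_T, Finset.biUnion_image]
  simp only [img_X]
theorem img_ga : (sGa (id : VV p → VV p)).image φ = sGa φ := by
  unfold sGa
  rw [Finset.image_insert, Finset.biUnion_image]
  simp only [img_U]; rfl
theorem img_gb : (sGb (id : VV p → VV p)).image φ = sGb φ := by
  unfold sGb
  rw [Finset.image_insert, Finset.biUnion_image]
  simp only [img_T]; rfl
theorem img_flex (h : Function.Injective φ) (b : Fin p.r) :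
    (sFlex (id : VV p → VV p) b).image φ = sFlex φ b := by
  unfold sFlex
  rw [Finset.image_insert, Finset.image_union, Finset.image_sdiff _ _ h, img_F, img_W, img_S]
  rfl

end img

theorem sH_image {φ : VV p → β} (h : Function.Injective φ) :
    sH φ = (H0 p).image (fun e => e.image φ) := by
  unfold H0 sH
  rw [Finset.image_union, Finset.image_insert, Finset.image_insert, Finset.image_image,
    Finset.image_image, img_ga, img_gb]
  congr 1
  · congr 2
    refine Finset.image_congr fun j _ => ?_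
    exact (img_core j).symm
  · refine Finset.image_congr fun j _ => ?_
    exact (img_flex h j).symm

/-- the injection attached to a copy -/
noncomputable def ofHC (h : HC p) : VV p → ℕ
  | .f a => h.F.orderEmbOfFin h.cF a
  | .t i a => (h.T i).orderEmbOfFin (h.cT i) a
  | .u i a => (h.X i \ h.T i).orderEmbOfFin (by
      rw [Finset.card_sdiff_of_subset (h.TX i), h.cX, h.cT]) a
  | .z => h.z
  | .s b a => (h.S b).orderEmbOfFin (h.cS b) a
  | .w a => (h.W \ Finset.univ.biUnion h.S).orderEmbOfFin (k := p.w0) (by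
      rw [Finset.card_sdiff_of_subset (Finset.biUnion_subset.2 fun s _ => h.SW s), h.cW,
        Finset.card_biUnion (fun s _ t _ hst => h.SS s t hst)]
      simp [h.cS]) a

theorem sF_ofHC (h : HC p) : sF (ofHC h) = h.F := by
  ext v
  rw [mem_sF]
  have := h.F.range_orderEmbOfFin h.cF
  rw [← Finset.mem_coe, ← this]
  rfl
theorem sT_ofHC (h : HC p) : sT (ofHC h) = h.T := by
  funext i
  ext v
  rw [mem_sT]
  have := (h.T i).range_orderEmbOfFin (h.cT i)
  rw [← Finset.mem_coe, ← this]
  rfl
theorem sU_ofHC (h : HC p) (i : I) : sU (ofHC h) i = h.X i \ h.T i := by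
  ext v
  rw [mem_sU]
  have := (h.X i \ h.T i).range_orderEmbOfFin (k := p.x i - p.q i) (by
      rw [Finset.card_sdiff_of_subset (h.TX i), h.cX, h.cT])
  rw [← Finset.mem_coe, ← this]
  rfl
theorem sX_ofHC (h : HC p) : sX (ofHC h) = h.X := by
  funext i
  unfold sX
  rw [sT_ofHC, sU_ofHC]
  exact Finset.union_sdiff_of_subset (h.TX i)
theorem sS_ofHC (h : HC p) : sS (ofHC h) = h.S := by
  funext i
  ext v
  rw [mem_sS]
  have := (h.S i).range_orderEmbOfFin (h.cS i)
  rw [← Finset.mem_coe, ← this]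
  rfl
theorem sW_ofHC (h : HC p) : sW (ofHC h) = h.W := by
  unfold sW
  have h1 : (Finset.univ.image (fun a => ofHC h (VV.w a)))
      = h.W \ Finset.univ.biUnion h.S := by
    ext v
    have := (h.W \ Finset.univ.biUnion h.S).range_orderEmbOfFin (k := p.w0) (by
      rw [Finset.card_sdiff_of_subset (Finset.biUnion_subset.2 fun s _ => h.SW s), h.cW,
        Finset.card_biUnion (fun s _ t _ hst => h.SS s t hst)]
      simp [h.cS])
    simp only [Finset.mem_image, Finset.mem_univ, true_and]
    rw [← Finset.mem_coe, ← this]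
    rfl
  rw [h1, sS_ofHC]
  exact Finset.union_sdiff_of_subset (Finset.biUnion_subset.2 fun s _ => h.SW s)

theorem ofHC_inj (h : HC p) : Function.Injective (ofHC h) := by
  have mf : ∀ a, ofHC h (.f a) ∈ h.F := fun a => Finset.orderEmbOfFin_mem _ _ _
  have mt : ∀ i a, ofHC h (.t i a) ∈ h.T i := fun i a => Finset.orderEmbOfFin_mem _ _ _
  have mu : ∀ i a, ofHC h (.u i a) ∈ h.X i \ h.T i := fun i a => Finset.orderEmbOfFin_mem _ _ _
  have ms : ∀ i a, ofHC h (.s i a) ∈ h.S i := fun i a => Finset.orderEmbOfFin_mem _ _ _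
  have mw : ∀ a, ofHC h (.w a) ∈ h.W \ Finset.univ.biUnion h.S :=
    fun a => Finset.orderEmbOfFin_mem _ _ _
  have mz : ofHC h .z = h.z := rfl
  have fx : ∀ v i, v ∈ h.F → v ∈ h.X i → False := fun v i h1 h2 =>
    Finset.disjoint_left.1 (h.FX i) h1 h2
  have xx : ∀ v i j, v ∈ h.X i → v ∈ h.X j → i = j := fun v i j h1 h2 => by
    by_contra hij
    exact Finset.disjoint_left.1 (h.XX i j hij) h1 h2
  have ss : ∀ v i j, v ∈ h.S i → v ∈ h.S j → i = j := fun v i j h1 h2 => by
    by_contra hij
    exact Finset.disjoint_left.1 (h.SS i j hij) h1 h2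
  have wf : ∀ v, v ∈ h.W → v ∈ h.F → False := fun v h1 h2 =>
    Finset.disjoint_left.1 h.WF h1 h2
  have wx : ∀ v i, v ∈ h.W → v ∈ h.X i → False := fun v i h1 h2 =>
    Finset.disjoint_left.1 (h.WX i) h1 h2
  have tx : ∀ v i, v ∈ h.T i → v ∈ h.X i := fun v i h1 => h.TX i h1
  have sw : ∀ v i, v ∈ h.S i → v ∈ h.W := fun v i h1 => h.SW i h1
  have zF := h.zF
  have zX := h.zX
  have zW := h.zW
  have mu1 : ∀ i a, ofHC h (.u i a) ∈ h.X i := fun i a => (Finset.mem_sdiff.1 (mu i a)).1
  have mu2 : ∀ i a, ofHC h (.u i a) ∉ h.T i := fun i a => (Finset.mem_sdiff.1 (mu i a)).2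
  have mw1 : ∀ a, ofHC h (.w a) ∈ h.W := fun a => (Finset.mem_sdiff.1 (mw a)).1
  have mw2 : ∀ a i, ofHC h (.w a) ∉ h.S i := fun a i hh =>
    (Finset.mem_sdiff.1 (mw a)).2 (Finset.mem_biUnion.2 ⟨i, Finset.mem_univ _, hh⟩)
  have mt' : ∀ i a, ofHC h (.t i a) ∈ h.X i := fun i a => tx _ _ (mt i a)
  have ms' : ∀ i a, ofHC h (.s i a) ∈ h.W := fun i a => sw _ _ (ms i a)
  clear tx sw mu mw
  intro v v' e
  cases v with
  | f a =>
    cases v' with
    | f b => exact congrArg _ ((h.F.orderEmbOfFin h.cF).injective e)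
    | t j b => exact (fx _ j (mf a) (e ▸ mt' j b)).elim
    | u j b => exact (fx _ j (mf a) (e ▸ mu1 j b)).elim
    | z => exact (zF (mz ▸ e ▸ mf a)).elim
    | s j b => exact (wf _ (e ▸ ms' j b) (mf a)).elim
    | w b => exact (wf _ (e ▸ mw1 b) (mf a)).elim
  | t i a =>
    cases v' with
    | f b => exact (fx _ i (mf b) (e ▸ mt' i a)).elim
    | t j b =>
      have hij := xx _ i j (mt' i a) (e ▸ mt' j b)
      subst hij
      exact congrArg _ (((h.T i).orderEmbOfFin (h.cT i)).injective e)
    | u j b =>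
      have hij := xx _ i j (mt' i a) (e ▸ mu1 j b)
      subst hij
      exact (mu2 i b (e ▸ mt i a)).elim
    | z => exact (zX i (mz ▸ e ▸ mt' i a)).elim
    | s j b => exact (wx _ i (e ▸ ms' j b) (mt' i a)).elim
    | w b => exact (wx _ i (e ▸ mw1 b) (mt' i a)).elim
  | u i a =>
    cases v' with
    | f b => exact (fx _ i (mf b) (e ▸ mu1 i a)).elim
    | t j b =>
      have hij := xx _ i j (mu1 i a) (e ▸ mt' j b)
      subst hij
      exact (mu2 i a (e ▸ mt i b)).elim
    | u j b =>
      have hij := xx _ i j (mu1 i a) (e ▸ mu1 j b)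
      subst hij
      exact congrArg _ (((h.X i \ h.T i).orderEmbOfFin (k := p.x i - p.q i) (by
        rw [Finset.card_sdiff_of_subset (h.TX i), h.cX, h.cT])).injective e)
    | z => exact (zX i (mz ▸ e ▸ mu1 i a)).elim
    | s j b => exact (wx _ i (e ▸ ms' j b) (mu1 i a)).elim
    | w b => exact (wx _ i (e ▸ mw1 b) (mu1 i a)).elim
  | z =>
    cases v' with
    | f b => exact (zF (mz ▸ e ▸ mf b)).elim
    | t j b => exact (zX j (mz ▸ e ▸ mt' j b)).elim
    | u j b => exact (zX j (mz ▸ e ▸ mu1 j b)).elim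
    | z => rfl
    | s j b => exact (zW (mz ▸ e ▸ ms' j b)).elim
    | w b => exact (zW (mz ▸ e ▸ mw1 b)).elim
  | s i a =>
    cases v' with
    | f b => exact (wf _ (ms' i a) (e ▸ mf b)).elim
    | t j b => exact (wx _ j (ms' i a) (e ▸ mt' j b)).elim
    | u j b => exact (wx _ j (ms' i a) (e ▸ mu1 j b)).elim
    | z => exact (zW (mz ▸ e ▸ ms' i a)).elim
    | s j b =>
      have hij := ss _ i j (ms i a) (e ▸ ms j b)
      subst hij
      exact congrArg _ (((h.S i).orderEmbOfFin (h.cS i)).injective e)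
    | w b => exact (mw2 b i (e ▸ ms i a)).elim
  | w a =>
    cases v' with
    | f b => exact (wf _ (mw1 a) (e ▸ mf b)).elim
    | t j b => exact (wx _ j (mw1 a) (e ▸ mt' j b)).elim
    | u j b => exact (wx _ j (mw1 a) (e ▸ mu1 j b)).elim
    | z => exact (zW (mz ▸ e ▸ mw1 a)).elim
    | s j b => exact (mw2 a j (e ▸ ms j b)).elim
    | w b =>
      exact congrArg _ (((h.W \ Finset.univ.biUnion h.S).orderEmbOfFin (k := p.w0) (by
        rw [Finset.card_sdiff_of_subset (Finset.biUnion_subset.2 fun s _ => h.SW s), h.cW,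
          Finset.card_biUnion (fun s _ t _ hst => h.SS s t hst)]
        simp [h.cS])).injective e)

theorem toHC_ofHC (h : HC p) : toHC (ofHC h) (ofHC_inj h) = h := by
  apply HC.ext
  · exact sF_ofHC h
  · exact sX_ofHC h
  · exact sT_ofHC h
  · rfl
  · exact sW_ofHC h
  · exact sS_ofHC h

/-- a standard injection -/
noncomputable def phi0 (p : Par I) : VV p → ℕ := fun v => (Fintype.equivFin (VV p) v : ℕ)

theorem phi0_inj (p : Par I) : Function.Injective (phi0 p) :=
  Fin.val_injective.comp (Fintype.equivFin (VV p)).injective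

theorem ex : S_EX := fun _ _ _ p => ⟨toHC (phi0 p) (phi0_inj p)⟩

theorem deg0 (hC : S_CARD) (v : VV p) : p.r - 1 ≤ ((H0 p).filter (fun e => v ∈ e)).card := by
  classical
  obtain ⟨c1, -, -, c4, -, -, -⟩ := hC I p
  have hflex : Function.Injective (sFlex (id : VV p → VV p)) := by
    intro b b' e
    apply c4 (toHC (phi0 p) (phi0_inj p))
    change sFlex (phi0 p) b = sFlex (phi0 p) b'
    rw [← img_flex (phi0_inj p), ← img_flex (phi0_inj p), e]
  have hcore : Function.Injective (sCore (id : VV p → VV p)) := by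
    have h1 := c1 (toHC (phi0 p) (phi0_inj p)).toRC
    unfold RC.coreS at h1
    rw [← Finset.card_univ, Finset.card_image_iff] at h1
    intro b b' e
    apply h1 (Finset.mem_coe.2 (Finset.mem_univ _)) (Finset.mem_coe.2 (Finset.mem_univ _))
    change sCore (phi0 p) b = sCore (phi0 p) b'
    rw [← img_core (φ := phi0 p) b, ← img_core (φ := phi0 p) b', e]
  have hr := p.r_ge
  have main : ∀ b0 : Fin p.r, (∀ b, b ≠ b0 → v ∈ sFlex (id : VV p → VV p) b) →
      p.r - 1 ≤ ((H0 p).filter (fun e => v ∈ e)).card := by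
    intro b0 hb
    have h1 : ((Finset.univ.erase b0).image (sFlex (id : VV p → VV p))).card = p.r - 1 := by
      rw [Finset.card_image_of_injective _ hflex, Finset.card_erase_of_mem (Finset.mem_univ _),
        Finset.card_univ, Fintype.card_fin]
    rw [← h1]
    apply Finset.card_le_card
    intro e he
    obtain ⟨b, hb', rfl⟩ := Finset.mem_image.1 he
    refine Finset.mem_filter.2 ⟨?_, hb b (Finset.ne_of_mem_erase hb')⟩
    exact Finset.mem_union_right _ (Finset.mem_image_of_mem _ (Finset.mem_univ _))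
  have main2 : ∀ i : I, (∀ j ∈ p.N i, v ∈ sCore (id : VV p → VV p) j) →
      p.r - 1 ≤ ((H0 p).filter (fun e => v ∈ e)).card := by
    intro i hi
    have h1 : ((p.N i).image (sCore (id : VV p → VV p))).card = p.D := by
      rw [Finset.card_image_of_injective _ hcore, p.N_card]
    have h2 := p.D_ge
    refine le_trans (by omega : p.r - 1 ≤ p.D) ?_
    rw [← h1]
    apply Finset.card_le_card
    intro e he
    obtain ⟨b, hb', rfl⟩ := Finset.mem_image.1 he
    refine Finset.mem_filter.2 ⟨?_, hi b hb'⟩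
    exact Finset.mem_union_left _ (Finset.mem_insert_of_mem (Finset.mem_insert_of_mem
      (Finset.mem_image_of_mem _ (Finset.mem_univ _))))
  cases v with
  | f a =>
    refine main ⟨0, by omega⟩ fun b _ => ?_
    exact Finset.mem_insert_of_mem (Finset.mem_union_left _ (mem_sF.2 ⟨a, rfl⟩))
  | t i a =>
    refine main2 i fun j hj => ?_
    exact Finset.mem_union_right _ (Finset.mem_union_right _ (Finset.mem_biUnion.2
      ⟨i, p.N_symm _ _ hj, mem_sX.2 (Or.inl ⟨a, rfl⟩)⟩))
  | u i a =>
    refine main2 i fun j hj => ?_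
    exact Finset.mem_union_right _ (Finset.mem_union_right _ (Finset.mem_biUnion.2
      ⟨i, p.N_symm _ _ hj, mem_sX.2 (Or.inr ⟨a, rfl⟩)⟩))
  | z =>
    refine main ⟨0, by omega⟩ fun b _ => ?_
    exact Finset.mem_insert_self _ _
  | s b a =>
    refine main b fun b' hb' => ?_
    refine Finset.mem_insert_of_mem (Finset.mem_union_right _ (Finset.mem_sdiff.2
      ⟨mem_sW.2 (Or.inl ⟨b, a, rfl⟩), fun h => ?_⟩))
    obtain ⟨c, hc⟩ := mem_sS.1 h
    have hc' : VV.s b' c = VV.s b a := hc
    cases hc'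
    exact hb' rfl
  | w a =>
    refine main ⟨0, by omega⟩ fun b _ => ?_
    refine Finset.mem_insert_of_mem (Finset.mem_union_right _ (Finset.mem_sdiff.2
      ⟨mem_sW.2 (Or.inr ⟨a, rfl⟩), fun h => ?_⟩))
    obtain ⟨c, hc⟩ := mem_sS.1 h
    have hc' : VV.s b c = VV.w a := hc
    cases hc'

theorem tr (hC : S_CARD) : S_TR := by
  classical
  intro I _ _ p
  let e := Fintype.equivFin (VV p)
  have he : Function.Injective (fun s : Finset (VV p) => s.image e) :=
    Finset.image_injective e.injective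
  refine ⟨Fintype.card (VV p), (H0 p).image (fun s => s.image e),
    Fintype.card_pos_iff.2 ⟨VV.z⟩, ?_, ?_, ?_, ?_⟩
  · exact ⟨(sGa (id : VV p → VV p)).image e, Finset.mem_image.2
      ⟨_, Finset.mem_union_left _ (Finset.mem_insert_self _ _), rfl⟩⟩
  · intro s' hs'
    obtain ⟨s, hs, rfl⟩ := Finset.mem_image.1 hs'
    have h1 := (hC I p).2.2.2.2.2.1 (toHC (phi0 p) (phi0_inj p)) (s.image (phi0 p)) (by
      rw [toHC_hedges, sH_image (phi0_inj p)]
      exact Finset.mem_image_of_mem _ hs)
    rw [Finset.card_image_of_injective _ (phi0_inj p)] at h1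
    rw [Finset.card_image_of_injective _ e.injective, h1]
  · intro v
    refine (deg0 hC (e.symm v)).trans ?_
    rw [← Finset.card_image_of_injective _ he]
    apply Finset.card_le_card
    intro s' hs'
    obtain ⟨s, hs, rfl⟩ := Finset.mem_image.1 hs'
    obtain ⟨h1, h2⟩ := Finset.mem_filter.1 hs
    exact Finset.mem_filter.2 ⟨Finset.mem_image_of_mem _ h1,
      Finset.mem_image.2 ⟨_, h2, e.apply_symm_apply v⟩⟩
  · intro A
    constructor
    · rintro ⟨f, hf, hA⟩
      refine ⟨toHC (f ∘ e) (hf.comp e.injective), ?_⟩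
      rw [toHC_hedges, sH_image (hf.comp e.injective)]
      intro s' hs'
      obtain ⟨s, hs, rfl⟩ := Finset.mem_image.1 hs'
      have := hA _ (Finset.mem_image_of_mem (fun s : Finset (VV p) => s.image e) hs)
      rwa [Finset.image_image] at this
    · rintro ⟨h, hh⟩
      refine ⟨ofHC h ∘ e.symm, (ofHC_inj h).comp e.symm.injective, ?_⟩
      intro s' hs'
      obtain ⟨s, hs, rfl⟩ := Finset.mem_image.1 hs'
      apply hh
      have h1 : h.hedges = (H0 p).image (fun e => e.image (ofHC h)) := by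
        conv_lhs => rw [← toHC_ofHC h]
        rw [toHC_hedges, sH_image (ofHC_inj h)]
      rw [h1, Finset.image_image]
      refine Finset.mem_image.2 ⟨s, hs, ?_⟩
      refine Finset.image_congr fun v _ => ?_
      simp [e]

end Pool.Agent.W148.DR
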